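import Pool.Agent.Lib.MP_e0da8e_an.QI.Trig

/-! The frame inequalities in Walsh coordinates. -/

namespace Pool.Agent.Lib.MP_e0da8e_an.QI

open MeasureTheory Finset Complex Filter Topology
open scoped ComplexConjugate InnerProductSpace

lemma cod_inj {ρ d : ℝ} (h0 : 0 < ρ) (h1 : ρ < 1 / 2) (hd : 0 < d) :
    Function.Injective (cod ρ d) := by
  intro ξ ζ h
  by_contra hne
  have hex : ∃ l, ξ l ≠ ζ l := Function.ne_iff.1 hne
  classical
  set k := Nat.find hex with hk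
  have h1' : ρ < 1 := by linarith
  have hs : ∀ ξ : ℕ → Bool, Summable fun j => d * sgn (ξ j) * ρ ^ (j + 1) / 2 := fun ξ =>
    Summable.of_norm_bounded ((summable_geometric_of_lt_one h0.le h1').mul_left _)
      fun j => norm_term_le h0.le d (ξ j) j
  let a : ℕ → ℝ := fun j => d * sgn (ξ j) * ρ ^ (j + 1) / 2 - d * sgn (ζ j) * ρ ^ (j + 1) / 2
  have ha : Summable a := (hs ξ).sub (hs ζ)
  have h2 : ∑' j, a j = 0 := by
    rw [(hs ξ).tsum_sub (hs ζ)]
    exact sub_eq_zero.2 h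
  rw [← ha.sum_add_tsum_nat_add (k + 1), sum_range_succ, sum_eq_zero (fun l hl => by
    have := not_not.1 (Nat.find_min hex (mem_range.1 hl))
    simp [a, this]), zero_add] at h2
  have h3 : |a k| = d * ρ ^ (k + 1) := by
    have h4 : ξ k ≠ ζ k := Nat.find_spec hex
    have h5 : 0 < d * ρ ^ (k + 1) := by positivity
    revert h4
    simp only [a]
    cases ξ k <;> cases ζ k <;> simp only [sgn] <;> intro h4
    · exact absurd rfl h4
    · rw [abs_of_neg (by simp; linarith)]; simp; ring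
    · rw [abs_of_pos (by simp; linarith)]; simp; ring
    · exact absurd rfl h4
  have h4 : ‖∑' j, a (j + (k + 1))‖ ≤ d * ρ ^ (k + 2) * (1 - ρ)⁻¹ := by
    refine tsum_of_norm_bounded ((hasSum_geometric_of_lt_one h0.le h1').mul_left _) fun j => ?_
    refine (norm_sub_le _ _).trans ?_
    have b1 := norm_term_le h0.le d (ξ (j + (k + 1))) (j + (k + 1))
    have b2 := norm_term_le h0.le d (ζ (j + (k + 1))) (j + (k + 1))
    rw [abs_of_pos hd] at b1 b2
    refine (add_le_add b1 b2).trans (le_of_eq (by ring))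
  rw [← neg_eq_of_add_eq_zero_right h2, norm_neg, Real.norm_eq_abs, h3,
    le_mul_inv_iff₀ (by linarith), pow_succ ρ (k + 1)] at h4
  have h5 : 0 < d * ρ ^ (k + 1) := by positivity
  nlinarith

lemma exists_Lp {ρ d : ℝ} (h0 : 0 < ρ) (h1 : ρ < 1 / 2) (hd : 0 < d) (g : C(ℕ → Bool, ℂ)) :
    ∃ f : Lp ℂ 2 (bernoulliConv ρ d), ‖f‖ = ‖ContinuousMap.toLp 2 PP ℂ g‖ ∧ ∀ t : ℝ,
      fourierCoef (bernoulliConv ρ d) f t =
        ∫ ξ, g ξ * conj (cexp (2 * Real.pi * I * t * cod ρ d ξ)) ∂PP := by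
  have h1' : ρ < 1 := by linarith
  have he : MeasurableEmbedding (cod ρ d) :=
    ((cont_cod h0.le h1' d).isClosedEmbedding (cod_inj h0 h1 hd)).measurableEmbedding
  have hmp : MeasurePreserving (cod ρ d) PP (bernoulliConv ρ d) := ⟨he.measurable, rfl⟩
  obtain ⟨F, -, hF⟩ := he.exists_measurable_extend g.continuous.measurable fun _ => ⟨0⟩
  have hg : MemLp (F ∘ cod ρ d) 2 PP := by
    rw [hF]
    exact (Lp.memLp (ContinuousMap.toLp 2 PP ℂ g)).ae_eq (ContinuousMap.coeFn_toLp (p := 2)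
      (𝕜 := ℂ) PP g)
  have hm : MemLp F 2 (bernoulliConv ρ d) := he.memLp_map_measure_iff.2 hg
  have hae : (hm.toLp F : ℝ → ℂ) ∘ cod ρ d =ᵐ[PP] g := by
    rw [← hF]
    exact hmp.quasiMeasurePreserving.ae_eq_comp hm.coeFn_toLp
  refine ⟨hm.toLp F, ?_, fun t => ?_⟩
  · rw [← Lp.norm_compMeasurePreserving _ hmp]
    congr 1
    refine Lp.ext ?_
    exact ((Lp.coeFn_compMeasurePreserving _ hmp).trans hae).trans
      (ContinuousMap.coeFn_toLp (p := 2) (𝕜 := ℂ) PP g).symm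
  · refine (he.integral_map _).trans (integral_congr_ae ?_)
    filter_upwards [hae] with ξ e
    rw [← e]
    rfl

theorem walsh_frame {ρ d : ℝ} (h0 : 0 < ρ) (h1 : ρ < 1 / 2) (hd : 0 < d)
    (h : HasFourierFrame (bernoulliConv ρ d)) :
    ∃ (Λ : Set ℝ) (A C : ℝ) (G : ℝ → Finset ℕ → ℝ), 0 < A ∧ 0 < C ∧
      (∀ t S, Tendsto (fun B => vv (fun l => ρ ^ (l + 1)) B S (Real.pi * t * d)) atTop
        (𝓝 (G t S))) ∧
      ∀ (J : Finset ℕ) (S : ℕ → Finset ℕ) (a : ℕ → ℝ), Set.InjOn S J →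
        Summable (fun t : Λ => (∑ i ∈ J, a i * G t (S i)) ^ 2) ∧
        A * ∑ i ∈ J, a i ^ 2 ≤ ∑' t : Λ, (∑ i ∈ J, a i * G t (S i)) ^ 2 ∧
        ∑' t : Λ, (∑ i ∈ J, a i * G t (S i)) ^ 2 ≤ C * ∑ i ∈ J, a i ^ 2 := by
  obtain ⟨Λ, A, C, -, hA, hAC, hf⟩ := h
  have h1' : ρ < 1 := by linarith
  choose G hG1 hG2 using fun t S => coef_limit h0.le h1' d t S
  refine ⟨Λ, A, C, G, hA, hA.trans_le hAC, hG1, fun J S a hS => ?_⟩
  obtain ⟨f, hn, hc⟩ := exists_Lp h0 h1 hd (∑ i ∈ J, (a i : ℂ) • psi (S i))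
  have e1 : ∀ t : ℝ, ‖fourierCoef (bernoulliConv ρ d) f t‖ ^ 2 =
      (∑ i ∈ J, a i * G t (S i)) ^ 2 := by
    intro t
    have e : fourierCoef (bernoulliConv ρ d) f t = ((∑ i ∈ J, a i * G t (S i) : ℝ) : ℂ) := by
      rw [hc]
      simp only [ContinuousMap.coe_sum, ContinuousMap.coe_smul, Finset.sum_apply, Pi.smul_apply,
        smul_eq_mul, sum_mul, mul_assoc (a _ : ℂ)]
      rw [integral_finsetSum]
      · push_cast
        exact sum_congr rfl fun i _ => by rw [integral_const_mul, hG2]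
      · intro i _
        refine (integrable_cont _ ?_).const_mul _
        have := cont_cod h0.le h1' d
        have := (psi (S i)).continuous
        fun_prop
    rw [e, norm_real, Real.norm_eq_abs, sq_abs]
  have e2 : ‖f‖ ^ 2 = ∑ i ∈ J, a i ^ 2 := by
    have hB : ∀ i ∈ J, S i ⊆ range (J.sup fun i => top (S i)) := fun i hi =>
      mem_pow_of_top_le (le_sup (f := fun i => top (S i)) hi)
    have e : ⟪ContinuousMap.toLp 2 PP ℂ (∑ i ∈ J, (a i : ℂ) • psi (S i)),
        ContinuousMap.toLp 2 PP ℂ (∑ i ∈ J, (a i : ℂ) • psi (S i))⟫_ℂ =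
        ((∑ i ∈ J, a i ^ 2 : ℝ) : ℂ) := by
      rw [map_sum, sum_inner]
      push_cast
      refine sum_congr rfl fun i hi => ?_
      rw [inner_sum, sum_eq_single i]
      · rw [map_smul, inner_smul_left, inner_smul_right, ContinuousMap.inner_toLp,
          psi_orth (hB i hi) (hB i hi), if_pos rfl, conj_ofReal]
        ring
      · intro k hk hne
        rw [map_smul, map_smul, inner_smul_left, inner_smul_right, ContinuousMap.inner_toLp,
          psi_orth (hB i hi) (hB k hk), if_neg fun e => hne (hS hi hk e).symm]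
        simp
      · intro h; exact absurd hi h
    rw [hn, ← inner_self_eq_norm_sq (𝕜 := ℂ), e]
    rfl
  simpa only [e1, e2] using hf f

end Pool.Agent.Lib.MP_e0da8e_an.QI
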