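import Pool.Agent.Lib.MP_e0da8e_an.QI.Coord

/-! No Fourier frame when a power of the ratio is a quadratic unit. -/

namespace Pool.Agent.Lib.MP_e0da8e_an.QI

open Finset Real Filter Topology

lemma vv_split (ω : ℕ → ℝ) {k : ℕ → ℕ} (hk : Function.Injective k) (L : ℕ) {B : ℕ}
    (hB : (range (L + 1)).image k ⊆ range B) (x : ℝ) {T : Finset ℕ} (hT : T ⊆ range (L + 1)) :
    vv ω B (T.image k) x = uu (fun i => ω (k i) * x) L T *
      ∏ l ∈ range B \ (range (L + 1)).image k, cos (ω l * x) := by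
  rw [vv_apply, ← prod_sdiff hB, mul_comm, prod_image fun _ _ _ _ h => hk h, uu]
  congr 1
  · exact prod_congr rfl fun i _ => by simp only [hk.mem_finset_image]
  · exact prod_congr rfl fun l hl =>
      if_neg fun h => (mem_sdiff.1 hl).2 (image_subset_image hT h)

lemma limit_ineq (ω : ℕ → ℝ) {k : ℕ → ℕ} (hk : Function.Injective k) {c : ℝ}
    (hc : c = 1 ∨ c = -1) {n : ℕ} (h : ∀ i, ω (k i) + c * ω (k (i + 2)) = 2 * n * ω (k (i + 1)))
    (M : ℕ) {δ : ℝ} (hδ : 0 < δ) (x : ℝ) (G : Finset ℕ → ℝ)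
    (hG : ∀ S, Tendsto (fun B => vv ω B S x) atTop (𝓝 (G S))) :
    (∑ i ∈ range (M + 1), c ^ i * G (({i, i + 1} : Finset ℕ).image k)) ^ 2 ≤
      2 * (G (({0, 1} : Finset ℕ).image k) ^ 2 + G (({M, M + 1} : Finset ℕ).image k) ^ 2) +
      2 * (((M + 1 : ℕ) + 2 * n) * δ) ^ 2 *
        ∑ T ∈ (range (M + 1 + 1)).powerset, G (T.image k) ^ 2 +
      (M + 1 : ℕ) / (δ ^ 2) ^ (M + 2) * ((∑ i ∈ range (M + 1), sin (ω (k i) * x) ^ 2) *
        G ∅ ^ 2) := by
  refine le_of_tendsto_of_tendsto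
    ((tendsto_finsetSum _ fun i _ => (hG _).const_mul _).pow 2)
    ((((((hG _).pow 2).add ((hG _).pow 2)).const_mul 2).add
      ((tendsto_finsetSum _ fun T _ => (hG _).pow 2).const_mul _)).add
      ((((hG ∅).pow 2).const_mul _).const_mul _)) ?_
  filter_upwards [eventually_ge_atTop (top ((range (M + 1 + 1)).image k))] with B hB
  have hB' := mem_pow_of_top_le hB
  have key := key_ineq (φ := fun i => ω (k i) * x) hc (n := n)
    (fun i => by linear_combination x * h i) M hδ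
  set P := ∏ l ∈ range B \ (range (M + 1 + 1)).image k, cos (ω l * x) with hP
  have e1 : ∑ i ∈ range (M + 1), c ^ i * vv ω B (({i, i + 1} : Finset ℕ).image k) x =
      (∑ i ∈ range (M + 1), c ^ i * uu (fun i => ω (k i) * x) (M + 1) {i, i + 1}) * P := by
    rw [sum_mul]
    refine sum_congr rfl fun i hi => ?_
    have := mem_range.1 hi
    rw [vv_split ω hk _ hB' x (by intro y; simp; omega), mul_assoc]
  have e2 : ∑ T ∈ (range (M + 1 + 1)).powerset, vv ω B (T.image k) x ^ 2 = P ^ 2 := by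
    rw [← one_mul (P ^ 2), ← sum_uu_sq (fun i => ω (k i) * x) (M + 1), sum_mul]
    exact sum_congr rfl fun T hT => by rw [vv_split ω hk _ hB' x (mem_powerset.1 hT), mul_pow]
  have e3 := vv_split ω hk _ hB' x (empty_subset _)
  rw [image_empty] at e3
  rw [e1, e2, e3, vv_split ω hk _ hB' x (by intro y; simp; omega),
    vv_split ω hk _ hB' x (by intro y; simp; omega), ← hP]
  refine le_trans (le_of_eq (mul_pow _ _ _))
    ((mul_le_mul_of_nonneg_right key (sq_nonneg P)).trans (le_of_eq (by ring)))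

theorem no_frame_even {ρ d c : ℝ} (h0 : 0 < ρ) (h1 : ρ < 1 / 2) (hd : 0 < d)
    (hc : c = 1 ∨ c = -1) {r n : ℕ} (hr : 0 < r)
    (h : 1 + c * (ρ ^ r) ^ 2 = 2 * n * ρ ^ r) : ¬ HasFourierFrame (bernoulliConv ρ d) := by
  intro hf
  obtain ⟨Λ, A, C, G, hA, hC, hG, hfr⟩ := walsh_frame h0 h1 hd hf
  have one : ∀ S, Summable (fun t : Λ => G t S ^ 2) ∧ ∑' t : Λ, G t S ^ 2 ≤ C := fun S => by
    have := hfr {0} (fun _ => S) (fun _ => 1) (by simp)
    simpa using And.intro this.1 this.2.2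
  obtain ⟨M, hM⟩ := exists_nat_ge ((4 * C + 2) / A)
  rw [div_le_iff₀ hA] at hM
  set u : ℝ := (M + 1 : ℕ) + 2 * n with hu
  have hu0 : 0 < u := by positivity
  set V : ℝ := (range (M + 1 + 1)).powerset.card * C with hV
  have hV0 : 0 ≤ V := by positivity
  set δ : ℝ := (u * (2 * V + 1))⁻¹ with hδ
  have hδ0 : 0 < δ := by positivity
  have hδ1 : 2 * (u * δ) ^ 2 * V ≤ 1 := by
    have e : u * δ = (2 * V + 1)⁻¹ := by rw [hδ]; field_simp
    rw [e, inv_pow, mul_comm 2, mul_assoc, inv_mul_le_iff₀ (by positivity)]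
    nlinarith
  set K : ℝ := (M + 1 : ℕ) / (δ ^ 2) ^ (M + 2) with hK
  let R : ℕ → Λ → ℝ := fun j t =>
    (∑ i ∈ range (M + 1), sin (ρ ^ (j + r * i + 1) * (π * t * d)) ^ 2) * G t ∅ ^ 2
  have hRb : ∀ j t, ‖R j t‖ ≤ (M + 1 : ℕ) * G t ∅ ^ 2 := fun j t => by
    rw [Real.norm_of_nonneg (by positivity)]
    refine mul_le_mul_of_nonneg_right ?_ (sq_nonneg _)
    simpa using sum_le_card_nsmul (range (M + 1)) _ 1 fun i _ => sin_sq_le_one _
  have hR : Tendsto (fun j => ∑' t, R j t) atTop (𝓝 (∑' _ : Λ, (0 : ℝ))) := by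
    refine tendsto_tsum_of_dominated_convergence ((one ∅).1.mul_left _) (fun t => ?_)
      (Eventually.of_forall hRb)
    have h2 : ∀ i, Tendsto (fun j => sin (ρ ^ (j + r * i + 1) * (π * t * d)) ^ 2) atTop (𝓝 0) := by
      intro i
      have h3 := ((tendsto_pow_atTop_nhds_zero_of_lt_one h0.le (by linarith)).mul_const
        (ρ ^ (r * i + 1))).mul_const (π * t * d)
      have h4 := ((continuous_sin.tendsto _).comp h3).pow 2
      simpa [pow_add, mul_assoc] using h4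
    simpa using (tendsto_finsetSum (range (M + 1)) fun i _ => h2 i).mul_const (G t ∅ ^ 2)
  have hR2 := hR.const_mul K
  rw [tsum_zero, mul_zero] at hR2
  obtain ⟨j, hj⟩ := (hR2.eventually_lt_const one_pos).exists
  have hk : Function.Injective fun i => j + r * i := fun a b e =>
    Nat.eq_of_mul_eq_mul_left hr (Nat.add_left_cancel e)
  obtain ⟨s1, lo, -⟩ := hfr (range (M + 1))
    (fun i => ({i, i + 1} : Finset ℕ).image fun i => j + r * i) (fun i => c ^ i) (by
      intro a _ b _ e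
      have e2 := image_injective hk e
      have e3 : a ∈ ({b, b + 1} : Finset ℕ) := e2 ▸ mem_insert_self _ _
      have e4 : b ∈ ({a, a + 1} : Finset ℕ) := e2.symm ▸ mem_insert_self _ _
      simp at e3 e4
      omega)
  have e5 : ∑ i ∈ range (M + 1), (c ^ i) ^ 2 = M + 1 := by
    rw [sum_congr rfl (g := fun _ => (1 : ℝ)) fun i _ => by rw [← sq_abs, abs_pow_c hc, one_pow]]
    simp
  have sR : Summable (R j) := Summable.of_norm_bounded ((one ∅).1.mul_left _) (hRb j)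
  have hsum := ((((one (({0, 1} : Finset ℕ).image fun i => j + r * i)).1.hasSum.add
    (one (({M, M + 1} : Finset ℕ).image fun i => j + r * i)).1.hasSum).mul_left 2).add
    ((hasSum_sum (s := (range (M + 1 + 1)).powerset) fun T _ =>
      (one (T.image fun i => j + r * i)).1.hasSum).mul_left (2 * (u * δ) ^ 2))).add
    (sR.hasSum.mul_left K)
  have up := hasSum_le (fun t : Λ => limit_ineq (fun l => ρ ^ (l + 1)) hk hc (n := n)
    (fun i => by
      simp only [mul_add, pow_add, pow_mul, mul_one]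
      linear_combination (ρ ^ j * (ρ ^ r) ^ i * ρ ^ 1) * h) M hδ0 (π * t * d) (G t) (hG t))
    s1.hasSum hsum
  have b1 : ∑ T ∈ (range (M + 1 + 1)).powerset,
      ∑' t : Λ, G t (T.image fun i => j + r * i) ^ 2 ≤ V := by
    simpa only [nsmul_eq_mul] using sum_le_card_nsmul _ _ C fun T _ => (one _).2
  have b2 := mul_le_mul_of_nonneg_left b1 (by positivity : 0 ≤ 2 * (u * δ) ^ 2)
  rw [e5] at lo
  nlinarith [(one (({0, 1} : Finset ℕ).image fun i => j + r * i)).2,
    (one (({M, M + 1} : Finset ℕ).image fun i => j + r * i)).2]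

theorem no_frame_unit {ρ d : ℝ} (h0 : 0 < ρ) (h1 : ρ < 1 / 2) (hd : 0 < d) {m : ℕ} (hm : 1 ≤ m)
    {c N : ℤ} (hc : c = 1 ∨ c = -1) (h : ρ⁻¹ ^ m + c * ρ ^ m = N) :
    ¬ HasFourierFrame (bernoulliConv ρ d) := by
  have hy : 0 < ρ ^ m := pow_pos h0 m
  have hy1 : ρ ^ m < 1 := pow_lt_one₀ h0.le (by linarith) (by omega)
  have hc' : (c : ℝ) = 1 ∨ (c : ℝ) = -1 := by exact_mod_cast hc
  have h2 : 1 + c * (ρ ^ m) ^ 2 = N * ρ ^ m := by
    rw [← h, inv_pow]
    field_simp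
  obtain ⟨w, hw⟩ : Even (N * (N ^ 2 - 3 * c)) := by
    rcases hc with rfl | rfl <;> simp [parity_simps] <;> tauto
  have hw' : (N : ℝ) * (N ^ 2 - 3 * c) = w + w := by exact_mod_cast hw
  have h3 : 1 + c * (ρ ^ (m * 3)) ^ 2 = 2 * w * ρ ^ (m * 3) := by
    rw [pow_mul]
    generalize ρ ^ m = y at *
    rcases hc' with e | e <;> rw [e] at h2 hw' ⊢
    · linear_combination ((1 + y ^ 2) ^ 2 + (1 + y ^ 2) * N * y + N ^ 2 * y ^ 2 - 3 * y ^ 2) * h2 +
        y ^ 3 * hw'
    · linear_combination ((1 - y ^ 2) ^ 2 + (1 - y ^ 2) * N * y + N ^ 2 * y ^ 2 + 3 * y ^ 2) * h2 +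
        y ^ 3 * hw'
  have hz : 0 < ρ ^ (m * 3) := pow_pos h0 _
  have hz1 : ρ ^ (m * 3) < 1 := pow_lt_one₀ h0.le (by linarith) (by omega)
  have hw0 : 0 ≤ w := by
    by_contra h4
    have h5 : (w : ℝ) < 0 := by exact_mod_cast not_le.1 h4
    have h6 := mul_neg_of_neg_of_pos h5 hz
    rcases hc' with e | e <;> rw [e] at h3 <;> nlinarith
  lift w to ℕ using hw0
  exact no_frame_even h0 h1 hd hc' (r := m * 3) (n := w) (by omega) (by exact_mod_cast h3)

end Pool.Agent.Lib.MP_e0da8e_an.QI
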