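import Pool.Agent.Lib.MP_e0da8e_an.Final

/-! A pointwise inequality for angles satisfying a three-term recursion. -/

namespace Pool.Agent.Lib.MP_e0da8e_an.QI

open Finset Real

/-- Walsh coordinate of the angles `φ 0, ..., φ L`. -/
noncomputable def uu (φ : ℕ → ℝ) (L : ℕ) (T : Finset ℕ) : ℝ :=
  ∏ l ∈ range (L + 1), if l ∈ T then sin (φ l) else cos (φ l)

lemma abs_prod_le_one (φ : ℕ → ℝ) (s T : Finset ℕ) :
    |∏ l ∈ s, if l ∈ T then sin (φ l) else cos (φ l)| ≤ 1 := by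
  rw [abs_prod]
  refine prod_le_one (fun l _ => abs_nonneg _) fun l _ => ?_
  split_ifs
  · exact abs_sin_le_one _
  · exact abs_cos_le_one _

lemma uu_le (φ : ℕ → ℝ) {L k : ℕ} (hk : k ≤ L) (T : Finset ℕ) :
    |uu φ L T| ≤ |if k ∈ T then sin (φ k) else cos (φ k)| := by
  rw [uu, ← mul_prod_erase _ _ (mem_range.2 (Nat.lt_succ_of_le hk)), abs_mul]
  exact mul_le_of_le_one_right (abs_nonneg _) (abs_prod_le_one φ _ T)

lemma sum_uu_sq (φ : ℕ → ℝ) (L : ℕ) : ∑ T ∈ (range (L + 1)).powerset, uu φ L T ^ 2 = 1 := by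
  simp only [uu, ← prod_pow, ite_pow]
  rw [sum_prod_ite]
  simp

lemma abs_sin_nat (n : ℕ) (x : ℝ) : |sin (n * x)| ≤ n * |sin x| := by
  induction n with
  | zero => simp
  | succ n ih =>
    have e : ((n + 1 : ℕ) : ℝ) * x = n * x + x := by push_cast; ring
    rw [e, sin_add]
    refine (abs_add_le _ _).trans ?_
    rw [abs_mul, abs_mul]
    have h1 := mul_le_of_le_one_right (abs_nonneg (sin (n * x))) (abs_cos_le_one x)
    have h2 := mul_le_of_le_one_left (abs_nonneg (sin x)) (abs_cos_le_one (n * x))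
    push_cast
    linarith

lemma abs_sin_even (n : ℕ) (x : ℝ) : |sin (2 * n * x)| ≤ 2 * n * |cos x| := by
  have h := abs_sin_nat n (2 * x)
  rw [sin_two_mul, abs_mul, abs_mul, abs_two] at h
  have h1 := mul_le_of_le_one_left (abs_nonneg (cos x)) (abs_sin_le_one x)
  have h2 : (0 : ℝ) ≤ n := Nat.cast_nonneg n
  rw [show 2 * n * x = n * (2 * x) by ring]
  nlinarith

lemma pair_le {φ : ℕ → ℝ} {c : ℝ} (hc : c = 1 ∨ c = -1) {n : ℕ}
    (h : ∀ i, φ i + c * φ (i + 2) = 2 * n * φ (i + 1)) {L a : ℕ} (ha : a + 2 ≤ L) :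
    |uu φ L {a, a + 1} + c * uu φ L {a + 1, a + 1 + 1}| ≤ 2 * n * |cos (φ (a + 1))| := by
  have key : ∀ T : Finset ℕ, T ⊆ {a, a + 1, a + 2} → uu φ L T =
      (if a ∈ T then sin (φ a) else cos (φ a)) *
        ((if a + 1 ∈ T then sin (φ (a + 1)) else cos (φ (a + 1))) *
        ((if a + 2 ∈ T then sin (φ (a + 2)) else cos (φ (a + 2))) *
          ∏ l ∈ (((range (L + 1)).erase a).erase (a + 1)).erase (a + 2),
            if l ∈ (∅ : Finset ℕ) then sin (φ l) else cos (φ l))) := by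
    intro T hT
    rw [uu, ← mul_prod_erase _ _ (mem_range.2 (by omega : a < L + 1)),
      ← mul_prod_erase _ _ (a := a + 1) (by simp; omega),
      ← mul_prod_erase _ _ (a := a + 2) (by simp; omega)]
    congr 3
    refine prod_congr rfl fun l hl => ?_
    have h1 : l ∉ T := fun h2 => by
      have h3 := hT h2
      simp at hl h3
      omega
    simp [h1]
  have h1 := abs_prod_le_one φ ((((range (L + 1)).erase a).erase (a + 1)).erase (a + 2)) ∅
  rw [key _ (by intro x; simp; omega), key _ (by intro x; simp; omega)]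
  generalize (∏ l ∈ (((range (L + 1)).erase a).erase (a + 1)).erase (a + 2),
    if l ∈ (∅ : Finset ℕ) then sin (φ l) else cos (φ l)) = R at h1 ⊢
  have e : sin (φ a) * cos (φ (a + 2)) + c * (cos (φ a) * sin (φ (a + 2))) =
      sin (2 * n * φ (a + 1)) := by
    rw [← h a]
    rcases hc with rfl | rfl
    · rw [one_mul, one_mul, sin_add]
    · rw [neg_one_mul, neg_one_mul, sin_add, cos_neg, sin_neg, mul_neg]
  have e2 : sin (φ a) * (sin (φ (a + 1)) * (cos (φ (a + 2)) * R)) +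
      c * (cos (φ a) * (sin (φ (a + 1)) * (sin (φ (a + 2)) * R))) =
      sin (2 * n * φ (a + 1)) * (sin (φ (a + 1)) * R) := by
    rw [← e]; ring
  rw [if_pos (by simp), if_pos (by simp), if_neg (by simp), if_neg (by simp; omega),
    if_pos (by simp), if_pos (by simp), e2, abs_mul, abs_mul]
  refine le_trans (mul_le_of_le_one_right (abs_nonneg _) ?_) (abs_sin_even n _)
  exact mul_le_one₀ (abs_sin_le_one _) (abs_nonneg _) h1

lemma abs_pow_c {c : ℝ} (hc : c = 1 ∨ c = -1) (i : ℕ) : |c ^ i| = 1 := by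
  rcases hc with rfl | rfl <;> simp

lemma rest_le {φ : ℕ → ℝ} {c : ℝ} (hc : c = 1 ∨ c = -1) {L k : ℕ} (hk : k ≤ L) (s : Finset ℕ)
    (hs : s ⊆ range L) (h : ∀ i ∈ s, i ≠ k ∧ i + 1 ≠ k) :
    |∑ i ∈ s, c ^ i * uu φ L {i, i + 1}| ≤ L * |cos (φ k)| := by
  refine (abs_sum_le_sum_abs _ _).trans ?_
  have h1 : ∀ i ∈ s, |c ^ i * uu φ L {i, i + 1}| ≤ |cos (φ k)| := fun i hi => by
    have h2 := uu_le φ hk {i, i + 1}
    have h3 := h i hi
    rw [if_neg (by simp; omega)] at h2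
    rwa [abs_mul, abs_pow_c hc, one_mul]
  refine (sum_le_card_nsmul _ _ _ h1).trans ?_
  rw [nsmul_eq_mul]
  refine mul_le_mul_of_nonneg_right ?_ (abs_nonneg _)
  exact_mod_cast (card_le_card hs).trans (card_range L).le

lemma near_le {φ : ℕ → ℝ} {c : ℝ} (hc : c = 1 ∨ c = -1) {n : ℕ}
    (h : ∀ i, φ i + c * φ (i + 2) = 2 * n * φ (i + 1)) {M k : ℕ} (hk : k ≤ M + 1) :
    ∃ E : ℝ, E ^ 2 ≤ uu φ (M + 1) {0, 1} ^ 2 + uu φ (M + 1) {M, M + 1} ^ 2 ∧
      |∑ i ∈ range (M + 1), c ^ i * uu φ (M + 1) {i, i + 1} - E| ≤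
        ((M + 1 : ℕ) + 2 * n) * |cos (φ k)| := by
  have h0 : 0 ≤ 2 * n * |cos (φ k)| := by positivity
  rcases Nat.eq_zero_or_pos k with rfl | hk0
  · refine ⟨uu φ (M + 1) {0, 1}, le_add_of_nonneg_right (sq_nonneg _), ?_⟩
    have h1 := rest_le (φ := φ) hc hk ((range (M + 1)).erase 0) (erase_subset _ _)
      (fun i hi => ⟨ne_of_mem_erase hi, by omega⟩)
    rw [← add_sum_erase _ _ (mem_range.2 (Nat.succ_pos M)), pow_zero, one_mul, zero_add,
      add_sub_cancel_left]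
    linarith
  · obtain ⟨a, rfl⟩ : ∃ a, k = a + 1 := ⟨k - 1, by omega⟩
    rcases Nat.eq_or_lt_of_le hk with e | hlt
    · obtain rfl : a = M := by omega
      refine ⟨c ^ a * uu φ (a + 1) {a, a + 1}, ?_, ?_⟩
      · rw [mul_pow, ← sq_abs (c ^ a), abs_pow_c hc, one_pow, one_mul]
        exact le_add_of_nonneg_left (sq_nonneg _)
      · have h1 := rest_le (φ := φ) hc hk (range a) (range_subset_range.2 (Nat.le_succ a))
          (fun i hi => by have := mem_range.1 hi; omega)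
        rw [sum_range_succ, add_sub_cancel_right]
        linarith
    · refine ⟨0, (zero_pow two_ne_zero).trans_le (by positivity), ?_⟩
      have h1 := rest_le (φ := φ) hc hk (((range (M + 1)).erase a).erase (a + 1))
        ((erase_subset _ _).trans (erase_subset _ _)) (fun i hi => by simp at hi; omega)
      have h2 := pair_le hc h (L := M + 1) (a := a) (by omega)
      rw [sub_zero, ← add_sum_erase _ _ (mem_range.2 (by omega : a < M + 1)),
        ← add_sum_erase _ _ (a := a + 1) (by simp; omega), ← add_assoc]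
      refine (abs_add_le _ _).trans ?_
      rw [pow_succ, mul_assoc, ← mul_add, abs_mul, abs_pow_c hc, one_mul]
      linarith

theorem key_ineq {φ : ℕ → ℝ} {c : ℝ} (hc : c = 1 ∨ c = -1) {n : ℕ}
    (h : ∀ i, φ i + c * φ (i + 2) = 2 * n * φ (i + 1)) (M : ℕ) {δ : ℝ} (hδ : 0 < δ) :
    (∑ i ∈ range (M + 1), c ^ i * uu φ (M + 1) {i, i + 1}) ^ 2 ≤
      2 * (uu φ (M + 1) {0, 1} ^ 2 + uu φ (M + 1) {M, M + 1} ^ 2) +
      2 * (((M + 1 : ℕ) + 2 * n) * δ) ^ 2 +
      (M + 1 : ℕ) / (δ ^ 2) ^ (M + 2) * (∑ i ∈ range (M + 1), sin (φ i) ^ 2) *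
        uu φ (M + 1) ∅ ^ 2 := by
  have hs : 0 ≤ ∑ i ∈ range (M + 1), sin (φ i) ^ 2 := sum_nonneg fun _ _ => sq_nonneg _
  by_cases hk : ∃ k ≤ M + 1, |cos (φ k)| ≤ δ
  · obtain ⟨k, hk, hk2⟩ := hk
    obtain ⟨E, h1, h2⟩ := near_le hc h hk
    have h3 := h2.trans (mul_le_mul_of_nonneg_left hk2 (by positivity))
    have h4 := pow_le_pow_left₀ (abs_nonneg _) h3 2
    rw [sq_abs] at h4
    have h5 : 0 ≤ (M + 1 : ℕ) / (δ ^ 2) ^ (M + 2) * (∑ i ∈ range (M + 1), sin (φ i) ^ 2) *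
        uu φ (M + 1) ∅ ^ 2 := by positivity
    generalize ∑ i ∈ range (M + 1), c ^ i * uu φ (M + 1) {i, i + 1} = G at *
    nlinarith [sq_nonneg (G - 2 * E)]
  · push Not at hk
    have h1 : (δ ^ 2) ^ (M + 2) ≤ uu φ (M + 1) ∅ ^ 2 := by
      rw [uu, ← prod_pow, ← card_range (M + 2), ← prod_const, card_range]
      refine prod_le_prod (fun _ _ => sq_nonneg _) fun l hl => ?_
      rw [if_neg (notMem_empty l), ← sq_abs (cos (φ l))]
      exact pow_le_pow_left₀ hδ.le (hk l (Nat.lt_succ_iff.1 (mem_range.1 hl))).le 2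
    have h2 : (∑ i ∈ range (M + 1), c ^ i * uu φ (M + 1) {i, i + 1}) ^ 2 ≤
        (M + 1 : ℕ) * ∑ i ∈ range (M + 1), sin (φ i) ^ 2 := by
      refine sq_sum_le_card_mul_sum_sq.trans ?_
      rw [card_range]
      refine mul_le_mul_of_nonneg_left (sum_le_sum fun i hi => ?_) (Nat.cast_nonneg _)
      have h3 := uu_le φ (L := M + 1) (k := i) (mem_range.1 hi).le {i, i + 1}
      rw [if_pos (by simp)] at h3
      rw [mul_pow, ← sq_abs (c ^ i), abs_pow_c hc, one_pow, one_mul]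
      exact sq_le_sq.2 h3
    have h3 : (M + 1 : ℕ) * ∑ i ∈ range (M + 1), sin (φ i) ^ 2 ≤
        (M + 1 : ℕ) / (δ ^ 2) ^ (M + 2) * (∑ i ∈ range (M + 1), sin (φ i) ^ 2) *
          uu φ (M + 1) ∅ ^ 2 := by
      refine le_trans (le_of_eq ?_) (mul_le_mul_of_nonneg_left h1 (by positivity))
      field_simp
    have h4 : 0 ≤ 2 * (uu φ (M + 1) {0, 1} ^ 2 + uu φ (M + 1) {M, M + 1} ^ 2) +
      2 * (((M + 1 : ℕ) + 2 * n) * δ) ^ 2 := by positivity
    linarith

end Pool.Agent.Lib.MP_e0da8e_an.QI
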